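import Mathlib
import Pool.Agent.H510R2.Div

set_option autoImplicit false

/-!
# Squares among the values of binary forms with bounded coefficients, at one point
-/

namespace Pool.Agent.R366.HE

open scoped Classical

/-- the value of the binary form with the coefficients `c` -/
def bin (k : ℕ) (c : Fin (k + 1) → ℤ) (s : Fin 2 → ℤ) : ℤ :=
  ∑ i : Fin (k + 1), c i * (s 0 ^ (i : ℕ) * s 1 ^ (k - (i : ℕ)))

lemma bin_sub (k : ℕ) (c c' : Fin (k + 1) → ℤ) (s : Fin 2 → ℤ) :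
    bin k (fun i => c i - c' i) s = bin k c s - bin k c' s := by
  unfold bin
  rw [← Finset.sum_sub_distrib]
  exact Finset.sum_congr rfl fun i _ => by ring

lemma bin_rev (k : ℕ) (c : Fin (k + 1) → ℤ) (s : Fin 2 → ℤ) :
    bin k (fun i => c (Fin.rev i)) (fun j => s (Fin.rev j)) = bin k c s := by
  unfold bin
  rw [← Equiv.sum_comp Fin.revPerm]
  refine Finset.sum_congr rfl fun i _ => ?_
  have h1 : ((Fin.rev i : Fin (k + 1)) : ℕ) = k - i := by
    rw [Fin.val_rev]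
    omega
  have h2 : k - (k - (i : ℕ)) = i := by
    have := i.2
    omega
  simp only [Fin.revPerm_apply, Fin.rev_rev, h1, h2]
  have h3 : (Fin.rev (0 : Fin 2)) = 1 := by decide
  have h4 : (Fin.rev (1 : Fin 2)) = 0 := by decide
  rw [h3, h4]
  ring

/-- the second coordinate divides a coefficient -/
lemma short_one {k : ℕ} (s : Fin 2 → ℤ) (hs : IsCoprime (s 0) (s 1)) (c : Fin (k + 1) → ℤ)
    (hc : c ≠ 0) (h0 : bin k c s = 0) : ∃ i, |s 1| ≤ |c i| := by
  by_cases hs1 : s 1 = 0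
  · exact ⟨0, by rw [hs1, abs_zero]; exact abs_nonneg _⟩
  obtain ⟨iz, hiz⟩ := Function.ne_iff.mp hc
  obtain ⟨m, hmf, hmax⟩ := Finset.exists_max_image (Finset.univ.filter fun i : Fin (k + 1) => c i ≠ 0)
    (fun i => (i : ℕ)) ⟨iz, by
      rw [Finset.mem_filter]
      exact ⟨Finset.mem_univ _, hiz⟩⟩
  rw [Finset.mem_filter] at hmf
  have hcm : c m ≠ 0 := hmf.2
  have hzero : ∀ i : Fin (k + 1), (m : ℕ) < i → c i = 0 := by
    intro i hi
    by_contra h
    have := hmax i (by rw [Finset.mem_filter]; exact ⟨Finset.mem_univ _, h⟩)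
    omega
  set E : ℤ := ∑ i : Fin (k + 1), c i * (s 0 ^ (i : ℕ) * s 1 ^ ((m : ℕ) - (i : ℕ))) with hE
  have hbin : bin k c s = s 1 ^ (k - (m : ℕ)) * E := by
    rw [hE, bin, Finset.mul_sum]
    refine Finset.sum_congr rfl fun i _ => ?_
    by_cases hi : (i : ℕ) ≤ m
    · have h1 : k - (i : ℕ) = (k - (m : ℕ)) + ((m : ℕ) - (i : ℕ)) := by
        have := m.2
        omega
      rw [h1, pow_add]
      ring
    · rw [hzero i (by omega)]
      ring
  have hE0 : E = 0 := by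
    rw [h0] at hbin
    exact (mul_eq_zero.1 hbin.symm).resolve_left (pow_ne_zero _ hs1)
  have hsplit : c m * s 0 ^ (m : ℕ) = -∑ i ∈ Finset.univ.erase m,
      c i * (s 0 ^ (i : ℕ) * s 1 ^ ((m : ℕ) - (i : ℕ))) := by
    rw [hE, ← Finset.add_sum_erase _ _ (Finset.mem_univ m), Nat.sub_self, pow_zero, mul_one] at hE0
    exact eq_neg_of_add_eq_zero_left hE0
  have hdvd : s 1 ∣ c m * s 0 ^ (m : ℕ) := by
    rw [hsplit, dvd_neg]
    refine Finset.dvd_sum fun i hi => ?_
    have him : (i : ℕ) ≠ m := fun h => (Finset.mem_erase.1 hi).1 (Fin.ext h)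
    by_cases h1 : (i : ℕ) < m
    · have h2 : s 1 ∣ s 1 ^ ((m : ℕ) - (i : ℕ)) := dvd_pow_self _ (by omega)
      exact Dvd.dvd.mul_left (Dvd.dvd.mul_left h2 _) _
    · rw [hzero i (by omega)]
      simp
  have h1 : s 1 ∣ c m := by
    have h2 : IsCoprime (s 1) (s 0 ^ (m : ℕ)) := hs.symm.pow_right
    exact h2.dvd_of_dvd_mul_right hdvd
  exact ⟨m, Int.le_of_dvd (abs_pos.2 hcm) ((abs_dvd_abs _ _).2 h1)⟩

/-- **a form vanishing at `s` has a coefficient as large as `s`** -/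
lemma short {k : ℕ} (s : Fin 2 → ℤ) (hs : IsCoprime (s 0) (s 1)) (c : Fin (k + 1) → ℤ)
    (hc : c ≠ 0) (h0 : bin k c s = 0) : ∃ i, max |s 0| |s 1| ≤ |c i| := by
  rcases le_total |s 0| |s 1| with h | h
  · rw [max_eq_right h]
    exact short_one s hs c hc h0
  · rw [max_eq_left h]
    obtain ⟨i, hi⟩ := short_one (fun j => s (Fin.rev j)) hs.symm (fun i => c (Fin.rev i)) (by
      intro h1
      apply hc
      funext i
      have h2 := congrFun h1 (Fin.rev i)
      simpa using h2) (by rw [bin_rev]; exact h0)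
    exact ⟨Fin.rev i, hi⟩

lemma bin_le {k : ℕ} {s : Fin 2 → ℤ} {c : Fin (k + 1) → ℤ} {H : ℝ} (hc : ∀ i, |(c i : ℝ)| ≤ H) :
    |(bin k c s : ℝ)| ≤ (k + 1) * (H * ((max |s 0| |s 1| : ℤ) : ℝ) ^ k) := by
  have hH : 0 ≤ H := (abs_nonneg _).trans (hc 0)
  unfold bin
  push_cast
  refine (Finset.abs_sum_le_sum_abs _ _).trans ?_
  have h1 : ∀ i ∈ (Finset.univ : Finset (Fin (k + 1))),
      |(c i : ℝ) * ((s 0 : ℝ) ^ (i : ℕ) * (s 1 : ℝ) ^ (k - (i : ℕ)))| ≤
        H * (max |(s 0 : ℝ)| |(s 1 : ℝ)|) ^ k := by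
    intro i _
    rw [abs_mul, abs_mul, abs_pow, abs_pow]
    refine mul_le_mul (hc i) ?_ (by positivity) hH
    have h2 : (max |(s 0 : ℝ)| |(s 1 : ℝ)|) ^ k = (max |(s 0 : ℝ)| |(s 1 : ℝ)|) ^ (i : ℕ) *
        (max |(s 0 : ℝ)| |(s 1 : ℝ)|) ^ (k - (i : ℕ)) := by
      rw [← pow_add]
      congr 1
      have := i.2
      omega
    rw [h2]
    exact mul_le_mul (pow_le_pow_left₀ (abs_nonneg _) (le_max_left _ _) _)
      (pow_le_pow_left₀ (abs_nonneg _) (le_max_right _ _) _) (by positivity) (by positivity)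
  refine (Finset.sum_le_sum h1).trans (le_of_eq ?_)
  rw [Finset.sum_const, Finset.card_univ, Fintype.card_fin, nsmul_eq_mul]
  push_cast
  ring

/-- the number of forms with bounded coefficients and given value -/
lemma count_value {k : ℕ} (s : Fin 2 → ℤ) (hs : IsCoprime (s 0) (s 1)) {A : ℝ}
    (hA : A = ((max |s 0| |s 1| : ℤ) : ℝ)) (hA1 : 1 ≤ A) {H : ℝ} (hAH : A ≤ 2 * H) (g : ℤ)
    (T : Finset (Fin (k + 1) → ℤ)) (hT : ∀ c ∈ T, bin k c s = g ∧ ∀ i, |(c i : ℝ)| ≤ H) :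
    (T.card : ℝ) ≤ ((2 * k + 8) * (H / A)) ^ k := by
  have hA0 : 0 < A := by linarith
  set r : ℝ := (k + 1) / A with hr
  have hr0 : 0 < r := by positivity
  let dom : Fin (k + 1) := if |s 1| ≤ |s 0| then Fin.last k else 0
  have hAeq : A = max |(s 0 : ℝ)| |(s 1 : ℝ)| := by rw [hA]; push_cast; rfl
  have hwt : ∀ i : Fin (k + 1), |(s 0 : ℝ) ^ (i : ℕ) * (s 1 : ℝ) ^ (k - (i : ℕ))| ≤ A ^ k := by
    intro i
    rw [abs_mul, abs_pow, abs_pow]
    have h2 : A ^ k = A ^ (i : ℕ) * A ^ (k - (i : ℕ)) := by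
      rw [← pow_add]
      congr 1
      have := i.2
      omega
    rw [h2]
    exact mul_le_mul (pow_le_pow_left₀ (abs_nonneg _) (hAeq ▸ le_max_left _ _) _)
      (pow_le_pow_left₀ (abs_nonneg _) (hAeq ▸ le_max_right _ _) _) (by positivity) (by positivity)
  have hdom : |(s 0 : ℝ) ^ (dom : ℕ) * (s 1 : ℝ) ^ (k - (dom : ℕ))| = A ^ k := by
    rw [abs_mul, abs_pow, abs_pow]
    by_cases h : |s 1| ≤ |s 0|
    · have h1 : (dom : ℕ) = k := by simp [dom, h]
      have h2 : |(s 1 : ℝ)| ≤ |(s 0 : ℝ)| := by exact_mod_cast h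
      rw [h1, Nat.sub_self, pow_zero, mul_one, hAeq, max_eq_left h2]
    · have h1 : (dom : ℕ) = 0 := by simp [dom, h]
      have h2 : |(s 0 : ℝ)| ≤ |(s 1 : ℝ)| := by exact_mod_cast (not_le.1 h).le
      rw [h1, Nat.sub_zero, pow_zero, one_mul, hAeq, max_eq_right h2]
  let Φ : (Fin (k + 1) → ℤ) → (Fin k → ℤ) := fun c j => ⌊(c (dom.succAbove j) : ℝ) * r⌋
  have hinj : Set.InjOn Φ (T : Set (Fin (k + 1) → ℤ)) := by
    intro c hc c' hc' hcc
    by_contra hne
    have hΔ : (fun i => c i - c' i) ≠ 0 := by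
      intro h
      apply hne
      funext i
      exact sub_eq_zero.1 (congrFun h i)
    have h1 : bin k (fun i => c i - c' i) s = 0 := by
      rw [bin_sub, (hT c hc).1, (hT c' hc').1, sub_self]
    have h2 : ∀ i : Fin (k + 1), i ≠ dom → |((c i - c' i : ℤ) : ℝ)| < A / (k + 1) := by
      intro i hi
      obtain ⟨j, rfl⟩ := Fin.exists_succAbove_eq hi
      have e1 := Int.abs_sub_lt_one_of_floor_eq_floor (congrFun hcc j)
      rw [← sub_mul, abs_mul, abs_of_pos hr0, ← lt_div_iff₀ hr0] at e1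
      push_cast
      refine e1.trans_le (le_of_eq ?_)
      rw [hr, one_div_div]
    have h3 : |((c dom - c' dom : ℤ) : ℝ)| < A := by
      have e1 : (c dom - c' dom) * (s 0 ^ (dom : ℕ) * s 1 ^ (k - (dom : ℕ))) =
          -∑ i ∈ Finset.univ.erase dom, (c i - c' i) * (s 0 ^ (i : ℕ) * s 1 ^ (k - (i : ℕ))) := by
        unfold bin at h1
        rw [← Finset.add_sum_erase _ _ (Finset.mem_univ dom)] at h1
        exact eq_neg_of_add_eq_zero_left h1
      have e2 : |((c dom - c' dom : ℤ) : ℝ)| * A ^ k ≤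
          ∑ i ∈ Finset.univ.erase dom, A / (k + 1) * A ^ k := by
        rw [← hdom, ← abs_mul]
        have e3 := congrArg (fun z : ℤ => (z : ℝ)) e1
        push_cast at e3
        push_cast
        rw [e3, abs_neg]
        refine (Finset.abs_sum_le_sum_abs _ _).trans (Finset.sum_le_sum fun i hi => ?_)
        rw [abs_mul, hdom]
        have e4 := h2 i (Finset.mem_erase.1 hi).1
        push_cast at e4
        exact mul_le_mul e4.le (hwt i) (abs_nonneg _) (by positivity)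
      rw [Finset.sum_const, Finset.card_erase_of_mem (Finset.mem_univ _), Finset.card_univ,
        Fintype.card_fin, nsmul_eq_mul, Nat.add_sub_cancel, ← mul_assoc] at e2
      have e5 := le_of_mul_le_mul_right e2 (pow_pos hA0 k)
      refine e5.trans_lt ?_
      rw [mul_div_assoc', div_lt_iff₀ (by positivity)]
      nlinarith
    have h4 : ∀ i : Fin (k + 1), |((c i - c' i : ℤ) : ℝ)| < A := by
      intro i
      by_cases hi : i = dom
      · rw [hi]
        exact h3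
      · refine (h2 i hi).trans_le ?_
        rw [div_le_iff₀ (by positivity)]
        have : (0 : ℝ) ≤ k := Nat.cast_nonneg k
        nlinarith
    obtain ⟨i, hi⟩ := short s hs _ hΔ h1
    have h5 : A ≤ |((c i - c' i : ℤ) : ℝ)| := by
      rw [hA, ← Int.cast_abs]
      exact_mod_cast hi
    exact absurd (h4 i) (not_lt.2 h5)
  set W : ℕ := ⌈H * r⌉₊ with hW
  have hcard : T.card ≤ (Fintype.piFinset fun _ : Fin k => Finset.Icc (-(W : ℤ)) W).card := by
    refine Finset.card_le_card_of_injOn Φ ?_ hinj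
    intro c hc
    rw [Finset.mem_coe, Fintype.mem_piFinset]
    intro j
    have h1 : |(c (dom.succAbove j) : ℝ) * r| ≤ H * r := by
      rw [abs_mul, abs_of_pos hr0]
      exact mul_le_mul_of_nonneg_right ((hT c hc).2 _) hr0.le
    have h2 := abs_le.1 h1
    have h3 := Nat.le_ceil (H * r)
    rw [Finset.mem_Icc]
    constructor
    · rw [Int.le_floor]
      push_cast
      linarith [h2.1]
    · have h4 : (⌊(c (dom.succAbove j) : ℝ) * r⌋ : ℝ) ≤ ((W : ℕ) : ℤ) := by
        push_cast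
        linarith [Int.floor_le ((c (dom.succAbove j) : ℝ) * r), h2.2]
      exact_mod_cast h4
  have hcard2 : (Fintype.piFinset fun _ : Fin k => Finset.Icc (-(W : ℤ)) W).card = (2 * W + 1) ^ k := by
    rw [Fintype.card_piFinset]
    simp only [Int.card_Icc, Finset.prod_const, Finset.card_univ, Fintype.card_fin]
    congr 1
    omega
  rw [hcard2] at hcard
  have h1 : (T.card : ℝ) ≤ (2 * (W : ℝ) + 1) ^ k := by exact_mod_cast hcard
  refine h1.trans (pow_le_pow_left₀ (by positivity) ?_ _)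
  have hH0 : 0 < H := by linarith
  have h2 : (W : ℝ) ≤ H * r + 1 := (Nat.ceil_lt_add_one (by positivity)).le
  have h3 : H * r = (k + 1) * (H / A) := by
    rw [hr]
    field_simp
  have h4 : 1 / 2 ≤ H / A := by rw [le_div_iff₀ hA0]; linarith
  nlinarith

/-- the number of integers whose squares lie in an interval -/
lemma card_sq (Y : Finset ℤ) (g L : ℝ) (hY : ∀ y ∈ Y, 0 ≤ y ∧ |(y : ℝ) ^ 2 - g| ≤ L) :
    (Y.card : ℝ) ≤ Real.sqrt (2 * L) + 1 := by
  rcases Y.eq_empty_or_nonempty with h | h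
  · rw [h, Finset.card_empty, Nat.cast_zero]
    positivity
  · set a := Y.min' h with ha
    set b := Y.max' h with hb
    have hab : a ≤ b := Finset.min'_le_max' Y h
    have h1 : Y ⊆ Finset.Icc a b := by
      intro y hy
      rw [Finset.mem_Icc]
      exact ⟨Finset.min'_le Y y hy, Finset.le_max' Y y hy⟩
    have h2 := Finset.card_le_card h1
    rw [Int.card_Icc] at h2
    have h3 : (Y.card : ℝ) ≤ ((b + 1 - a : ℤ) : ℝ) := by
      have : ((b + 1 - a).toNat : ℤ) = b + 1 - a := Int.toNat_of_nonneg (by omega)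
      rw [← this]
      exact_mod_cast h2
    have hbY := hY b (Finset.max'_mem Y h)
    have haY := hY a (Finset.min'_mem Y h)
    have h4 : ((b : ℝ) - a) ^ 2 ≤ 2 * L := by
      have e1 := abs_le.1 hbY.2
      have e2 := abs_le.1 haY.2
      have e3 : (0 : ℝ) ≤ a := by exact_mod_cast haY.1
      have e4 : (a : ℝ) ≤ b := by exact_mod_cast hab
      nlinarith
    have h5 : (b : ℝ) - a ≤ Real.sqrt (2 * L) := Real.le_sqrt_of_sq_le h4
    push_cast at h3
    linarith

/-- **squares, for points not larger than the coefficients** -/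
lemma squares_small {k : ℕ} (s : Fin 2 → ℤ) (hs : IsCoprime (s 0) (s 1)) {A : ℝ}
    (hA : A = ((max |s 0| |s 1| : ℤ) : ℝ)) (hA1 : 1 ≤ A) {H : ℝ} (hH : 1 ≤ H) (hAH : A ≤ 2 * H)
    (g : ℤ) (T : Finset (Fin (k + 1) → ℤ))
    (hT : ∀ c ∈ T, (∃ y : ℤ, y ^ 2 = g + bin k c s) ∧ ∀ i, |(c i : ℝ)| ≤ H) :
    (T.card : ℝ) ≤ (2 * k + 8) ^ (k + 1) * (H ^ (k + 1) / A ^ k) * (A ^ k / H) ^ (1 / 2 : ℝ) := by
  have hA0 : 0 < A := by linarith
  have hH0 : 0 < H := by linarith
  set L : ℝ := (k + 1) * (H * A ^ k) with hL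
  have hL1 : 1 ≤ L := by
    have h1 : (1 : ℝ) ≤ A ^ k := one_le_pow₀ hA1
    have h2 : (0 : ℝ) ≤ k := Nat.cast_nonneg k
    have h3 : 1 ≤ H * A ^ k := one_le_mul_of_one_le_of_one_le hH h1
    nlinarith
  -- the values
  let v : (Fin (k + 1) → ℤ) → ℤ := fun c => bin k c s
  have hy : ∀ n ∈ T.image v, ∃ y : ℤ, 0 ≤ y ∧ y ^ 2 = g + n := by
    intro n hn
    obtain ⟨c, hc, rfl⟩ := Finset.mem_image.1 hn
    obtain ⟨y, hy⟩ := (hT c hc).1
    exact ⟨|y|, abs_nonneg y, by rw [sq_abs]; exact hy⟩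
  choose! f hf0 hf using hy
  have hinj : Set.InjOn f (T.image v : Set ℤ) := by
    intro n hn n' hn' h
    have e1 := hf n hn
    have e2 := hf n' hn'
    rw [h, e2] at e1
    linarith
  have himg : ((T.image v).card : ℝ) ≤ Real.sqrt (2 * L) + 1 := by
    rw [← Finset.card_image_of_injOn hinj]
    refine card_sq _ g L ?_
    intro y hy
    obtain ⟨n, hn, rfl⟩ := Finset.mem_image.1 hy
    refine ⟨hf0 n hn, ?_⟩
    have e1 : ((f n : ℤ) : ℝ) ^ 2 = g + n := by exact_mod_cast hf n hn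
    rw [e1, add_sub_cancel_left]
    obtain ⟨c, hc, rfl⟩ := Finset.mem_image.1 hn
    have e2 := bin_le (s := s) (hT c hc).2
    rw [← hA] at e2
    exact e2
  have hfib : ∀ n ∈ T.image v, ((T.filter fun c => v c = n).card : ℝ) ≤
      ((2 * k + 8) * (H / A)) ^ k := by
    intro n _
    refine count_value s hs hA hA1 hAH n _ ?_
    intro c hc
    rw [Finset.mem_filter] at hc
    exact ⟨hc.2, (hT c hc.1).2⟩
  have hcard : (T.card : ℝ) ≤ ((2 * k + 8) * (H / A)) ^ k * (T.image v).card := by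
    rw [Finset.card_eq_sum_card_image v T]
    push_cast
    calc ∑ n ∈ T.image v, ((T.filter fun c => v c = n).card : ℝ)
        ≤ ∑ n ∈ T.image v, ((2 * (k : ℝ) + 8) * (H / A)) ^ k := Finset.sum_le_sum hfib
      _ = _ := by
        rw [Finset.sum_const, nsmul_eq_mul]
        ring
  have h1 : Real.sqrt (2 * L) + 1 ≤ (2 * k + 8) * Real.sqrt (H * A ^ k) := by
    have e1 : Real.sqrt (2 * L) = Real.sqrt (2 * (k + 1)) * Real.sqrt (H * A ^ k) := by
      rw [← Real.sqrt_mul (by positivity), hL]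
      congr 1
      ring
    have e2 : Real.sqrt (2 * (k + 1)) ≤ 2 * (k + 1) := by
      rw [Real.sqrt_le_left (by positivity)]
      have : (0 : ℝ) ≤ k := Nat.cast_nonneg k
      nlinarith
    have e3 : 1 ≤ Real.sqrt (H * A ^ k) := by
      rw [Real.one_le_sqrt]
      exact one_le_mul_of_one_le_of_one_le hH (one_le_pow₀ hA1)
    rw [e1]
    have e4 := mul_le_mul_of_nonneg_right e2 (Real.sqrt_nonneg (H * A ^ k))
    nlinarith
  have h2 : Real.sqrt (H * A ^ k) = H * (A ^ k / H) ^ (1 / 2 : ℝ) := by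
    rw [← Real.sqrt_eq_rpow]
    have e1 : H * A ^ k = H ^ 2 * (A ^ k / H) := by field_simp
    rw [e1, Real.sqrt_mul (by positivity), Real.sqrt_sq hH0.le]
  calc (T.card : ℝ) ≤ ((2 * k + 8) * (H / A)) ^ k * (T.image v).card := hcard
    _ ≤ ((2 * k + 8) * (H / A)) ^ k * ((2 * k + 8) * (H * (A ^ k / H) ^ (1 / 2 : ℝ))) := by
        refine mul_le_mul_of_nonneg_left ?_ (by positivity)
        rw [← h2]
        exact himg.trans h1
    _ = _ := by
        rw [mul_pow, div_pow, pow_succ (2 * (k : ℝ) + 8), pow_succ H]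
        ring

/-- **squares, for points larger than the coefficients** -/
lemma squares_large (k : ℕ) {ε : ℝ} (hε : 0 < ε) : ∃ C : ℝ, 0 < C ∧
    ∀ (s : Fin 2 → ℤ), IsCoprime (s 0) (s 1) → ∀ A : ℝ, A = ((max |s 0| |s 1| : ℤ) : ℝ) →
    ∀ H : ℝ, 1 ≤ H → 2 * H < A → ∀ (g : ℤ) (T : Finset (Fin (k + 1) → ℤ)),
    (∀ c ∈ T, (∃ y : ℤ, y ^ 2 = g + bin k c s) ∧ ∀ i, |(c i : ℝ)| ≤ H) →
    (T.card : ℝ) ≤ C * H ^ (((k : ℝ) + 1) / 2) * A ^ ε := by
  set η : ℝ := 2 * ε / (k + 1) with hη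
  have hη0 : 0 < η := by positivity
  obtain ⟨C, hC, hdiv⟩ := Pool.Agent.H510R2.divisor_bound η hη0
  refine ⟨1 + (5 ^ (k + 1) * (2 * (C * (2 * (k + 1)) ^ η))) ^ (1 / 2 : ℝ), by positivity, ?_⟩
  intro s hs A hA H hH hHA g T hT
  have hH0 : 0 < H := by linarith
  have hA1 : 1 ≤ A := by linarith
  have hA0 : 0 < A := by linarith
  have hy : ∀ c ∈ T, ∃ y : ℤ, 0 ≤ y ∧ y ^ 2 = g + bin k c s := by
    intro c hc
    obtain ⟨y, hy⟩ := (hT c hc).1
    exact ⟨|y|, abs_nonneg y, by rw [sq_abs]; exact hy⟩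
  choose! f hf0 hf using hy
  -- the values determine the form
  have hne : ∀ c ∈ T, ∀ c' ∈ T, c ≠ c' → bin k (fun i => c i - c' i) s ≠ 0 := by
    intro c hc c' hc' hcc h0
    obtain ⟨i, hi⟩ := short s hs _ (by
      intro h
      apply hcc
      funext i
      exact sub_eq_zero.1 (congrFun h i)) h0
    have h5 : A ≤ |((c i - c' i : ℤ) : ℝ)| := by
      rw [hA, ← Int.cast_abs]
      exact_mod_cast hi
    have h6 : |((c i - c' i : ℤ) : ℝ)| ≤ 2 * H := by
      push_cast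
      have e1 := (hT c hc).2 i
      have e2 := (hT c' hc').2 i
      calc |(c i : ℝ) - c' i| ≤ |(c i : ℝ)| + |(c' i : ℝ)| := abs_sub _ _
        _ ≤ 2 * H := by linarith
    linarith
  set N : ℕ := ⌊2 * H⌋₊ with hN
  have hN2 : (N : ℝ) ≤ 2 * H := Nat.floor_le (by positivity)
  set Q : ℝ := (k + 1) * (2 * H * A ^ k) with hQ
  -- differences
  set Δs : Finset (Fin (k + 1) → ℤ) :=
    (Fintype.piFinset fun _ : Fin (k + 1) => Finset.Icc (-(N : ℤ)) N).filter
      (fun e => bin k e s ≠ 0) with hΔs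
  let U : (Fin (k + 1) → ℤ) → Finset ℤ := fun e =>
    (bin k e s).natAbs.divisors.image (fun d : ℕ => (d : ℤ)) ∪
      (bin k e s).natAbs.divisors.image (fun d : ℕ => -(d : ℤ))
  have hU : ∀ e ∈ Δs, ((U e).card : ℝ) ≤ 2 * (C * Q ^ η) := by
    intro e he
    rw [hΔs, Finset.mem_filter, Fintype.mem_piFinset] at he
    have h1 : 1 ≤ (bin k e s).natAbs := Nat.one_le_iff_ne_zero.2 (Int.natAbs_ne_zero.2 he.2)
    have h2 := hdiv _ h1
    have h3 : ((bin k e s).natAbs : ℝ) ≤ Q := by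
      have e1 : ∀ i, |(e i : ℝ)| ≤ 2 * H := by
        intro i
        have e2 := he.1 i
        rw [Finset.mem_Icc, ← abs_le] at e2
        have e3 : |(e i : ℝ)| ≤ N := by exact_mod_cast e2
        exact e3.trans hN2
      have e4 := bin_le (s := s) e1
      rw [← hA] at e4
      rw [Nat.cast_natAbs]
      push_cast
      exact e4
    have h4 : ((U e).card : ℝ) ≤ 2 * ((bin k e s).natAbs.divisors.card : ℝ) := by
      have e1 : (U e).card ≤ (bin k e s).natAbs.divisors.card + (bin k e s).natAbs.divisors.card :=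
        (Finset.card_union_le _ _).trans (add_le_add Finset.card_image_le Finset.card_image_le)
      have e2 : ((U e).card : ℝ) ≤ (bin k e s).natAbs.divisors.card + (bin k e s).natAbs.divisors.card := by
        exact_mod_cast e1
      linarith
    have h5 : (((bin k e s).natAbs : ℕ) : ℝ) ^ η ≤ Q ^ η :=
      Real.rpow_le_rpow (Nat.cast_nonneg _) h3 hη0.le
    have h6 : C * (((bin k e s).natAbs : ℕ) : ℝ) ^ η ≤ C * Q ^ η := mul_le_mul_of_nonneg_left h5 hC.le
    linarith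
  -- the pairs
  let Ψ : (Fin (k + 1) → ℤ) × (Fin (k + 1) → ℤ) → (Σ _ : Fin (k + 1) → ℤ, ℤ) := fun p =>
    ⟨fun i => p.1 i - p.2 i, f p.1 - f p.2⟩
  have hdiff : ∀ c ∈ T, ∀ c' ∈ T, (f c - f c') * (f c + f c') = bin k (fun i => c i - c' i) s := by
    intro c hc c' hc'
    have e1 := hf c hc
    have e2 := hf c' hc'
    rw [bin_sub]
    linear_combination e1 - e2
  have hmaps : ∀ p ∈ T.offDiag, Ψ p ∈ Δs.sigma U := by
    intro p hp
    rw [Finset.mem_offDiag] at hp
    obtain ⟨hc, hc', hcc⟩ := hp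
    have h0 := hne _ hc _ hc' hcc
    rw [Finset.mem_sigma, hΔs, Finset.mem_filter, Fintype.mem_piFinset]
    refine ⟨⟨fun i => ?_, h0⟩, ?_⟩
    · rw [Finset.mem_Icc, ← abs_le]
      have e1 := (hT _ hc).2 i
      have e2 := (hT _ hc').2 i
      have e3 : |((p.1 i - p.2 i : ℤ) : ℝ)| ≤ 2 * H := by
        push_cast
        calc |(p.1 i : ℝ) - p.2 i| ≤ |(p.1 i : ℝ)| + |(p.2 i : ℝ)| := abs_sub _ _
          _ ≤ 2 * H := by linarith
      have e4 : ((|p.1 i - p.2 i|.toNat : ℕ) : ℝ) ≤ 2 * H := by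
        have e5 : ((|p.1 i - p.2 i|.toNat : ℤ) : ℝ) = |((p.1 i - p.2 i : ℤ) : ℝ)| := by
          rw [Int.toNat_of_nonneg (abs_nonneg _)]
          push_cast
          rfl
        rw [← e5] at e3
        exact_mod_cast e3
      have e6 := Nat.le_floor e4
      rw [← hN] at e6
      change |p.1 i - p.2 i| ≤ (N : ℤ)
      have e7 := Int.self_le_toNat (|p.1 i - p.2 i|)
      have e8 : ((|p.1 i - p.2 i|.toNat : ℕ) : ℤ) ≤ N := by exact_mod_cast e6
      linarith
    · have h1 := hdiff _ hc _ hc'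
      have h2 : (f p.1 - f p.2) ∣ bin k (fun i => p.1 i - p.2 i) s := ⟨_, h1.symm⟩
      have h3 : (f p.1 - f p.2).natAbs ∈ (bin k (fun i => p.1 i - p.2 i) s).natAbs.divisors := by
        rw [Nat.mem_divisors]
        exact ⟨Int.natAbs_dvd_natAbs.2 h2, Int.natAbs_ne_zero.2 h0⟩
      rw [Finset.mem_union, Finset.mem_image, Finset.mem_image]
      rcases le_total 0 (f p.1 - f p.2) with h | h
      · left
        exact ⟨_, h3, Int.natAbs_of_nonneg h⟩
      · right
        refine ⟨_, h3, ?_⟩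
        change -(((f p.1 - f p.2).natAbs : ℕ) : ℤ) = f p.1 - f p.2
        rw [Int.ofNat_natAbs_of_nonpos h]
        ring
  have hΨinj : Set.InjOn Ψ (T.offDiag : Set _) := by
    intro p hp p' hp' h
    rw [Finset.mem_coe, Finset.mem_offDiag] at hp hp'
    have h1 : (fun i => p.1 i - p.2 i) = (fun i => p'.1 i - p'.2 i) := congrArg Sigma.fst h
    have h2 : f p.1 - f p.2 = f p'.1 - f p'.2 := by
      have := (Sigma.mk.injEq _ _ _ _).mp h
      exact eq_of_heq this.2
    have h3 := hdiff _ hp.1 _ hp.2.1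
    have h4 := hdiff _ hp'.1 _ hp'.2.1
    have h0 := hne _ hp.1 _ hp.2.1 hp.2.2
    rw [← h1, ← h3, ← h2] at h4
    have h5 : f p.1 - f p.2 ≠ 0 := by
      intro h6
      rw [h6, zero_mul] at h3
      exact h0 h3.symm
    have h6 : f p'.1 + f p'.2 = f p.1 + f p.2 := mul_left_cancel₀ h5 h4
    have h7 : f p.1 = f p'.1 := by linarith
    have h8 : f p.2 = f p'.2 := by linarith
    have key : ∀ c ∈ T, ∀ c' ∈ T, f c = f c' → c = c' := by
      intro c hc c' hc' hfc
      by_contra hcc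
      apply hne c hc c' hc' hcc
      rw [← hdiff c hc c' hc', hfc, sub_self, zero_mul]
    exact Prod.ext (key _ hp.1 _ hp'.1 h7) (key _ hp.2.1 _ hp'.2.1 h8)
  have hcount := Finset.card_le_card_of_injOn Ψ hmaps hΨinj
  rw [Finset.card_sigma, Finset.offDiag_card] at hcount
  have hΔcard : (Δs.card : ℝ) ≤ (5 * H) ^ (k + 1) := by
    have h1 : Δs.card ≤ (2 * N + 1) ^ (k + 1) := by
      refine (Finset.card_filter_le _ _).trans (le_of_eq ?_)
      rw [Fintype.card_piFinset]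
      simp only [Int.card_Icc, Finset.prod_const, Finset.card_univ, Fintype.card_fin]
      congr 1
      omega
    have h2 : (Δs.card : ℝ) ≤ (2 * (N : ℝ) + 1) ^ (k + 1) := by exact_mod_cast h1
    exact h2.trans (pow_le_pow_left₀ (by positivity) (by linarith) _)
  set τ : ℝ := 2 * (C * Q ^ η) with hτ
  have hQ0 : 0 < Q := by positivity
  have hτ0 : 0 ≤ τ := by positivity
  set M : ℝ := (T.card : ℝ) with hM
  have hMM : M * M - M ≤ (5 * H) ^ (k + 1) * τ := by
    have h1 : ((T.card * T.card - T.card : ℕ) : ℝ) ≤ ∑ e ∈ Δs, ((U e).card : ℝ) := by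
      exact_mod_cast hcount
    rw [Nat.cast_sub (Nat.le_mul_self _), Nat.cast_mul] at h1
    refine h1.trans ?_
    calc ∑ e ∈ Δs, ((U e).card : ℝ) ≤ ∑ e ∈ Δs, τ := Finset.sum_le_sum hU
      _ = (Δs.card : ℝ) * τ := by rw [Finset.sum_const, nsmul_eq_mul]
      _ ≤ _ := mul_le_mul_of_nonneg_right hΔcard hτ0
  have hM1 : M ≤ 1 + ((5 * H) ^ (k + 1) * τ) ^ (1 / 2 : ℝ) := by
    rw [← Real.sqrt_eq_rpow]
    by_cases h1 : M ≤ 1
    · have := Real.sqrt_nonneg ((5 * H) ^ (k + 1) * τ)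
      linarith
    · rw [not_le] at h1
      have h2 : (M - 1) ^ 2 ≤ (5 * H) ^ (k + 1) * τ := by nlinarith
      have h3 := Real.le_sqrt_of_sq_le h2
      linarith
  refine hM1.trans ?_
  have hτeq : (5 * H) ^ (k + 1) * τ ≤ (5 ^ (k + 1) * (2 * (C * (2 * (k + 1)) ^ η))) *
      (H ^ (k + 1) * A ^ (2 * ε)) := by
    have h1 : Q ≤ (2 * (k + 1)) * A ^ (k + 1) := by
      rw [hQ, pow_succ A k]
      have h2 : H ≤ A := by linarith
      have h3 : 0 < A ^ k := by positivity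
      have h4 : (0 : ℝ) ≤ k := Nat.cast_nonneg k
      have h5 : H * A ^ k ≤ A * A ^ k := mul_le_mul_of_nonneg_right h2 h3.le
      nlinarith
    have h2 : Q ^ η ≤ (2 * (k + 1)) ^ η * A ^ (2 * ε) := by
      calc Q ^ η ≤ ((2 * (k + 1)) * A ^ (k + 1)) ^ η := Real.rpow_le_rpow hQ0.le h1 hη0.le
        _ = (2 * (k + 1)) ^ η * (A ^ (k + 1)) ^ η := Real.mul_rpow (by positivity) (by positivity)
        _ = _ := by
            congr 1
            rw [← Real.rpow_natCast, ← Real.rpow_mul hA0.le]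
            congr 1
            rw [hη]
            push_cast
            field_simp
    have h3 : τ ≤ 2 * (C * ((2 * (k + 1)) ^ η * A ^ (2 * ε))) := by
      rw [hτ]
      have := mul_le_mul_of_nonneg_left h2 hC.le
      linarith
    calc (5 * H) ^ (k + 1) * τ ≤ (5 * H) ^ (k + 1) * (2 * (C * ((2 * (k + 1)) ^ η * A ^ (2 * ε)))) :=
          mul_le_mul_of_nonneg_left h3 (by positivity)
      _ = _ := by rw [mul_pow]; ring
  have h1 : ((5 * H) ^ (k + 1) * τ) ^ (1 / 2 : ℝ) ≤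
      (5 ^ (k + 1) * (2 * (C * (2 * (k + 1)) ^ η))) ^ (1 / 2 : ℝ) *
        (H ^ (((k : ℝ) + 1) / 2) * A ^ ε) := by
    refine (Real.rpow_le_rpow (by positivity) hτeq (by norm_num)).trans (le_of_eq ?_)
    have e1 : (H ^ (k + 1) * A ^ (2 * ε)) ^ (1 / 2 : ℝ) = H ^ (((k : ℝ) + 1) / 2) * A ^ ε := by
      rw [Real.mul_rpow (by positivity) (by positivity), ← Real.rpow_natCast H,
        ← Real.rpow_mul hH0.le, ← Real.rpow_mul hA0.le]
      congr 2
      · push_cast; ring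
      · ring
    rw [Real.mul_rpow (by positivity) (by positivity : (0 : ℝ) ≤ H ^ (k + 1) * A ^ (2 * ε)), e1]
  have h2 : 1 ≤ H ^ (((k : ℝ) + 1) / 2) * A ^ ε :=
    one_le_mul_of_one_le_of_one_le (Real.one_le_rpow hH (by positivity))
      (Real.one_le_rpow hA1 hε.le)
  calc 1 + ((5 * H) ^ (k + 1) * τ) ^ (1 / 2 : ℝ) ≤ 1 * (H ^ (((k : ℝ) + 1) / 2) * A ^ ε) +
        (5 ^ (k + 1) * (2 * (C * (2 * (k + 1)) ^ η))) ^ (1 / 2 : ℝ) *
        (H ^ (((k : ℝ) + 1) / 2) * A ^ ε) := by linarith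
    _ = _ := by ring

end Pool.Agent.R366.HE
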