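import Mathlib
import Pool.Agent.R366.HE.Sq

set_option autoImplicit false

/-!
# Rational and integral points on random hyperelliptic curves
-/

namespace Pool.Agent.R366.HE

open scoped Classical

/-- the size of a vector -/
noncomputable def sz (s : Fin 2 → ℤ) : ℝ := ((max |s 0| |s 1| : ℤ) : ℝ)

lemma one_le_sz {s : Fin 2 → ℤ} (hs : IsCoprime (s 0) (s 1)) : 1 ≤ sz s := by
  unfold sz
  have h1 : (1 : ℤ) ≤ max |s 0| |s 1| := by
    by_contra h
    replace h : max |s 0| |s 1| ≤ 0 := by omega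
    have h2 : s 0 = 0 := abs_nonpos_iff.1 ((le_max_left _ _).trans h)
    have h3 : s 1 = 0 := abs_nonpos_iff.1 ((le_max_right _ _).trans h)
    rw [h2, h3, isCoprime_self] at hs
    exact not_isUnit_zero hs
  exact_mod_cast h1

/-- one point -/
lemma one_point (k : ℕ) {ε : ℝ} (hε : 0 < ε) : ∃ C : ℝ, 0 < C ∧
    ∀ (s : Fin 2 → ℤ), IsCoprime (s 0) (s 1) → ∀ H : ℝ, 1 ≤ H → ∀ (g : ℤ)
    (T : Finset (Fin (k + 1) → ℤ)),
    (∀ c ∈ T, (∃ y : ℤ, y ^ 2 = g + bin k c s) ∧ ∀ i, |(c i : ℝ)| ≤ H) →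
    (T.card : ℝ) ≤ C * (H ^ ((k : ℝ) + 1 / 2) * (1 / sz s ^ ((k : ℝ) / 2)) +
      H ^ (((k : ℝ) + 1) / 2) * sz s ^ ε) := by
  obtain ⟨C, hC, h⟩ := squares_large k hε
  refine ⟨C + (2 * k + 8) ^ (k + 1), by positivity, fun s hs H hH g T hT => ?_⟩
  have hA1 := one_le_sz hs
  have hA0 : 0 < sz s := by linarith
  have hH0 : 0 < H := by linarith
  have e1 : 0 ≤ H ^ ((k : ℝ) + 1 / 2) * (1 / sz s ^ ((k : ℝ) / 2)) := by positivity
  have e2 : 0 ≤ H ^ (((k : ℝ) + 1) / 2) * sz s ^ ε := by positivity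
  have e3 : (0 : ℝ) ≤ (2 * k + 8) ^ (k + 1) := by positivity
  by_cases hlt : 2 * H < sz s
  · have h1 := h s hs (sz s) rfl H hH hlt g T hT
    nlinarith [mul_nonneg hC.le e1, mul_nonneg e3 e1, mul_nonneg e3 e2]
  · have h1 := squares_small s hs (A := sz s) rfl hA1 hH (not_lt.1 hlt) g T hT
    have h2 : H ^ (k + 1) / sz s ^ k * (sz s ^ k / H) ^ (1 / 2 : ℝ) =
        H ^ ((k : ℝ) + 1 / 2) * (1 / sz s ^ ((k : ℝ) / 2)) := by
      have f1 : (sz s ^ k / H) ^ (1 / 2 : ℝ) = sz s ^ ((k : ℝ) / 2) / H ^ (1 / 2 : ℝ) := by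
        rw [Real.div_rpow (by positivity) hH0.le, ← Real.rpow_natCast (sz s), ← Real.rpow_mul hA0.le]
        congr 2
        ring
      have f2 : sz s ^ k = sz s ^ ((k : ℝ) / 2) * sz s ^ ((k : ℝ) / 2) := by
        rw [← Real.rpow_add hA0, ← Real.rpow_natCast]
        congr 1
        ring
      have f3 : H ^ (k + 1) = H ^ ((k : ℝ) + 1 / 2) * H ^ (1 / 2 : ℝ) := by
        rw [← Real.rpow_add hH0, ← Real.rpow_natCast]
        congr 1
        push_cast
        ring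
      rw [f1, f2, f3]
      have g1 : sz s ^ ((k : ℝ) / 2) ≠ 0 := by positivity
      have g2 : H ^ (1 / 2 : ℝ) ≠ 0 := by positivity
      field_simp
    rw [mul_assoc, h2] at h1
    nlinarith [mul_nonneg hC.le e1, mul_nonneg hC.le e2, mul_nonneg e3 e2]

/-- the number of vectors of given size -/
lemma card_size (a N : ℕ) :
    (((Fintype.piFinset fun _ : Fin 2 => Finset.Icc (-(N : ℤ)) N).filter
      fun s => max |s 0| |s 1| = (a : ℤ)).card : ℝ) ≤ 4 * (2 * a + 1) := by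
  have h1 : ((Fintype.piFinset fun _ : Fin 2 => Finset.Icc (-(N : ℤ)) N).filter
      fun s => max |s 0| |s 1| = (a : ℤ)) ⊆
      (({(a : ℤ), -(a : ℤ)} : Finset ℤ) ×ˢ Finset.Icc (-(a : ℤ)) a ∪
        Finset.Icc (-(a : ℤ)) a ×ˢ ({(a : ℤ), -(a : ℤ)} : Finset ℤ)).image
        (fun z => (![z.1, z.2] : Fin 2 → ℤ)) := by
    intro s hs
    rw [Finset.mem_filter] at hs
    have hs0 : |s 0| ≤ a := hs.2 ▸ le_max_left _ _
    have hs1 : |s 1| ≤ a := hs.2 ▸ le_max_right _ _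
    rw [Finset.mem_image]
    refine ⟨(s 0, s 1), ?_, ?_⟩
    · rw [Finset.mem_union, Finset.mem_product, Finset.mem_product, Finset.mem_insert,
        Finset.mem_singleton, Finset.mem_insert, Finset.mem_singleton, Finset.mem_Icc, Finset.mem_Icc,
        ← abs_le, ← abs_le]
      rcases max_choice |s 0| |s 1| with h | h
      · left
        rw [h] at hs
        exact ⟨(abs_eq (by positivity)).1 hs.2, hs1⟩
      · right
        rw [h] at hs
        exact ⟨hs0, (abs_eq (by positivity)).1 hs.2⟩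
    · funext i
      fin_cases i <;> rfl
  have h2 := (Finset.card_le_card h1).trans Finset.card_image_le
  have h3 := h2.trans (Finset.card_union_le _ _)
  rw [Finset.card_product, Finset.card_product, Int.card_Icc] at h3
  have h4 : ({(a : ℤ), -(a : ℤ)} : Finset ℤ).card ≤ 2 := Finset.card_le_two
  have h5 : ((a : ℤ) + 1 - -(a : ℤ)).toNat = 2 * a + 1 := by omega
  rw [h5] at h3
  have h6 : ((Fintype.piFinset fun _ : Fin 2 => Finset.Icc (-(N : ℤ)) N).filter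
      fun s => max |s 0| |s 1| = (a : ℤ)).card ≤ 4 * (2 * a + 1) := by nlinarith
  exact_mod_cast h6

/-- the sum over the vectors -/
lemma sum_size : ∃ C : ℝ, 0 < C ∧ ∀ (N : ℕ) (Z : Finset (Fin 2 → ℤ)),
    (∀ s ∈ Z, IsCoprime (s 0) (s 1) ∧ |s 0| ≤ N ∧ |s 1| ≤ N) →
    ∑ s ∈ Z, (1 / sz s ^ (5 / 2 : ℝ)) ≤ C := by
  have hsum : Summable fun a : ℕ => 1 / (a : ℝ) ^ (3 / 2 : ℝ) :=
    Real.summable_one_div_nat_rpow.2 (by norm_num)
  set S : ℝ := ∑' a : ℕ, 1 / (a : ℝ) ^ (3 / 2 : ℝ) with hS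
  have hS0 : 0 ≤ S := tsum_nonneg fun a => by positivity
  refine ⟨12 * S + 1, by positivity, fun N Z hZ => ?_⟩
  let φ : (Fin 2 → ℤ) → ℕ := fun s => (max |s 0| |s 1|).toNat
  have hφ : ∀ s ∈ Z, ((φ s : ℕ) : ℤ) = max |s 0| |s 1| := fun s _ =>
    Int.toNat_of_nonneg (le_max_of_le_left (abs_nonneg _))
  have hφ1 : ∀ s ∈ Z, 1 ≤ φ s := by
    intro s hs
    have h1 := one_le_sz (hZ s hs).1
    unfold sz at h1
    rw [← hφ s hs] at h1
    exact_mod_cast h1
  have hmaps : ∀ s ∈ Z, φ s ∈ Finset.Icc 1 N := by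
    intro s hs
    rw [Finset.mem_Icc]
    refine ⟨hφ1 s hs, ?_⟩
    have h1 : ((φ s : ℕ) : ℤ) ≤ N := by
      rw [hφ s hs]
      exact max_le (hZ s hs).2.1 (hZ s hs).2.2
    exact_mod_cast h1
  rw [← Finset.sum_fiberwise_of_maps_to hmaps]
  have h1 : ∀ a ∈ Finset.Icc 1 N, ∑ s ∈ Z.filter (fun s => φ s = a), (1 / sz s ^ (5 / 2 : ℝ)) ≤
      12 * (1 / (a : ℝ) ^ (3 / 2 : ℝ)) := by
    intro a ha
    rw [Finset.mem_Icc] at ha
    have ha0 : (0 : ℝ) < a := by exact_mod_cast ha.1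
    have ha1 : (1 : ℝ) ≤ a := by exact_mod_cast ha.1
    have h2 : ∑ s ∈ Z.filter (fun s => φ s = a), (1 / sz s ^ (5 / 2 : ℝ)) =
        ((Z.filter (fun s => φ s = a)).card : ℝ) * (1 / (a : ℝ) ^ (5 / 2 : ℝ)) := by
      rw [← nsmul_eq_mul, ← Finset.sum_const]
      refine Finset.sum_congr rfl fun s hs => ?_
      rw [Finset.mem_filter] at hs
      have h3 : sz s = a := by
        unfold sz
        rw [← hφ s hs.1, hs.2]
        simp
      rw [h3]
    have h3 : ((Z.filter (fun s => φ s = a)).card : ℝ) ≤ 4 * (2 * a + 1) := by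
      refine le_trans ?_ (card_size a N)
      have h4 : Z.filter (fun s => φ s = a) ⊆
          ((Fintype.piFinset fun _ : Fin 2 => Finset.Icc (-(N : ℤ)) N).filter
            fun s => max |s 0| |s 1| = (a : ℤ)) := by
        intro s hs
        rw [Finset.mem_filter] at hs
        rw [Finset.mem_filter, Fintype.mem_piFinset]
        refine ⟨fun i => ?_, ?_⟩
        · rw [Finset.mem_Icc, ← abs_le]
          fin_cases i
          · exact (hZ s hs.1).2.1
          · exact (hZ s hs.1).2.2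
        · rw [← hφ s hs.1, hs.2]
      exact_mod_cast Finset.card_le_card h4
    rw [h2]
    have h5 : (a : ℝ) ^ (5 / 2 : ℝ) = a * (a : ℝ) ^ (3 / 2 : ℝ) := by
      have : (5 / 2 : ℝ) = 1 + 3 / 2 := by norm_num
      rw [this, Real.rpow_add ha0, Real.rpow_one]
    have h6 : 0 < (a : ℝ) ^ (3 / 2 : ℝ) := by positivity
    calc ((Z.filter (fun s => φ s = a)).card : ℝ) * (1 / (a : ℝ) ^ (5 / 2 : ℝ))
        ≤ (12 * a) * (1 / (a : ℝ) ^ (5 / 2 : ℝ)) := by
          refine mul_le_mul_of_nonneg_right ?_ (by positivity)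
          linarith
      _ = _ := by
          rw [h5]
          field_simp
  refine (Finset.sum_le_sum h1).trans ?_
  rw [← Finset.mul_sum]
  have h2 : ∑ a ∈ Finset.Icc 1 N, 1 / (a : ℝ) ^ (3 / 2 : ℝ) ≤ S :=
    hsum.sum_le_tsum _ (fun a _ => by positivity)
  linarith

/-- **rational points on random hyperelliptic curves** -/
theorem rational (k : ℕ) (hk : 5 ≤ k) {ε : ℝ} (hε : 0 < ε) : ∃ C : ℝ, 0 < C ∧
    ∀ H B : ℝ, 1 ≤ H → 1 ≤ B → ∀ (G : (Fin 2 → ℤ) → ℤ) (P : Finset ((Fin (k + 1) → ℤ) × (Fin 2 → ℤ))),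
    (∀ p ∈ P, (∀ i, |(p.1 i : ℝ)| ≤ H) ∧ IsCoprime (p.2 0) (p.2 1) ∧
      |(p.2 0 : ℝ)| ≤ B ∧ |(p.2 1 : ℝ)| ≤ B ∧ ∃ y : ℤ, y ^ 2 = G p.2 + bin k p.1 p.2) →
    (P.card : ℝ) ≤ C * (H ^ ((k : ℝ) + 1 / 2) + H ^ (((k : ℝ) + 1) / 2) * B ^ (2 + ε)) := by
  obtain ⟨C, hC, h⟩ := one_point k hε
  obtain ⟨C₂, hC₂, h₂⟩ := sum_size
  refine ⟨C * (C₂ + 9), by positivity, fun H B hH hB G P hP => ?_⟩
  have hH0 : 0 < H := by linarith
  have hB0 : 0 < B := by linarith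
  set N : ℕ := ⌊B⌋₊ with hN
  have hNB : (N : ℝ) ≤ B := Nat.floor_le hB0.le
  set Z : Finset (Fin 2 → ℤ) := (Fintype.piFinset fun _ : Fin 2 => Finset.Icc (-(N : ℤ)) N).filter
    (fun s => IsCoprime (s 0) (s 1)) with hZ
  have habs : ∀ x : ℤ, |(x : ℝ)| ≤ B ↔ |x| ≤ (N : ℤ) := by
    intro x
    rw [← Int.cast_abs, hN, ← Int.natCast_natAbs, Int.cast_natCast, Nat.cast_le,
      Nat.le_floor_iff hB0.le]
  have hZm : ∀ s : Fin 2 → ℤ, s ∈ Z ↔ IsCoprime (s 0) (s 1) ∧ |s 0| ≤ (N : ℤ) ∧ |s 1| ≤ (N : ℤ) := by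
    intro s
    rw [hZ, Finset.mem_filter, Fintype.mem_piFinset, Fin.forall_fin_two, Finset.mem_Icc,
      Finset.mem_Icc, ← abs_le, ← abs_le]
    tauto
  have hmaps : ∀ p ∈ P, p.2 ∈ Z := by
    intro p hp
    obtain ⟨-, h1, h2, h3, -⟩ := hP p hp
    exact (hZm p.2).2 ⟨h1, (habs _).1 h2, (habs _).1 h3⟩
  have hone : ∀ s ∈ Z, ((P.filter fun p => p.2 = s).card : ℝ) ≤
      C * (H ^ ((k : ℝ) + 1 / 2) * (1 / sz s ^ (5 / 2 : ℝ)) + H ^ (((k : ℝ) + 1) / 2) * B ^ ε) := by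
    intro s hs
    obtain ⟨h1, h2, h3⟩ := (hZm s).1 hs
    have hs1 := one_le_sz h1
    have hinj : Set.InjOn Prod.fst
        (↑(P.filter fun p => p.2 = s) : Set ((Fin (k + 1) → ℤ) × (Fin 2 → ℤ))) := by
      intro p hp p' hp' hpp
      have e1 := (Finset.mem_filter.1 (Finset.mem_coe.1 hp)).2
      have e2 := (Finset.mem_filter.1 (Finset.mem_coe.1 hp')).2
      exact Prod.ext hpp (e1.trans e2.symm)
    rw [← Finset.card_image_of_injOn hinj]
    refine (h s h1 H hH (G s) _ ?_).trans ?_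
    · intro c hc
      obtain ⟨p, hp, rfl⟩ := Finset.mem_image.1 hc
      rw [Finset.mem_filter] at hp
      obtain ⟨g1, -, -, -, g5⟩ := hP p hp.1
      rw [hp.2] at g5
      exact ⟨g5, g1⟩
    · have e1 : 1 / sz s ^ ((k : ℝ) / 2) ≤ 1 / sz s ^ (5 / 2 : ℝ) := by
        refine one_div_le_one_div_of_le (by positivity) ?_
        refine Real.rpow_le_rpow_of_exponent_le hs1 ?_
        have : (5 : ℝ) ≤ k := by exact_mod_cast hk
        linarith
      have e2 : sz s ≤ B := by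
        refine le_trans ?_ hNB
        unfold sz
        have : max |s 0| |s 1| ≤ (N : ℤ) := max_le h2 h3
        exact_mod_cast this
      have e3 : sz s ^ ε ≤ B ^ ε := Real.rpow_le_rpow (by linarith) e2 hε.le
      refine mul_le_mul_of_nonneg_left (add_le_add ?_ ?_) hC.le
      · exact mul_le_mul_of_nonneg_left e1 (by positivity)
      · exact mul_le_mul_of_nonneg_left e3 (by positivity)
  have h3 : (P.card : ℝ) = ∑ s ∈ Z, ((P.filter fun p => p.2 = s).card : ℝ) := by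
    rw [Finset.card_eq_sum_card_fiberwise hmaps]
    push_cast
    rfl
  have hZcard : (Z.card : ℝ) ≤ 9 * B ^ 2 := by
    have h4 : Z.card ≤ (2 * N + 1) ^ 2 := by
      refine (Finset.card_filter_le _ _).trans (le_of_eq ?_)
      rw [Fintype.card_piFinset]
      simp only [Int.card_Icc, Finset.prod_const, Finset.card_univ, Fintype.card_fin]
      congr 1
      omega
    have h5 : (Z.card : ℝ) ≤ (2 * (N : ℝ) + 1) ^ 2 := by exact_mod_cast h4
    have h6 : (2 * (N : ℝ) + 1) ≤ 3 * B := by linarith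
    have h7 : (0 : ℝ) ≤ 2 * (N : ℝ) + 1 := by positivity
    nlinarith
  have hBB : B ^ 2 * B ^ ε = B ^ (2 + ε) := by
    rw [Real.rpow_add hB0]
    norm_num
  calc (P.card : ℝ) = ∑ s ∈ Z, ((P.filter fun p => p.2 = s).card : ℝ) := h3
    _ ≤ ∑ s ∈ Z, C * (H ^ ((k : ℝ) + 1 / 2) * (1 / sz s ^ (5 / 2 : ℝ)) +
          H ^ (((k : ℝ) + 1) / 2) * B ^ ε) := Finset.sum_le_sum hone
    _ = C * (H ^ ((k : ℝ) + 1 / 2) * (∑ s ∈ Z, (1 / sz s ^ (5 / 2 : ℝ))) +
          (Z.card : ℝ) * (H ^ (((k : ℝ) + 1) / 2) * B ^ ε)) := by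
        rw [← Finset.mul_sum, Finset.sum_add_distrib, ← Finset.mul_sum, Finset.sum_const,
          nsmul_eq_mul]
    _ ≤ C * (H ^ ((k : ℝ) + 1 / 2) * C₂ + (9 * B ^ 2) * (H ^ (((k : ℝ) + 1) / 2) * B ^ ε)) := by
        refine mul_le_mul_of_nonneg_left (add_le_add ?_ ?_) hC.le
        · exact mul_le_mul_of_nonneg_left (h₂ N Z fun s hs => (hZm s).1 hs) (by positivity)
        · exact mul_le_mul_of_nonneg_right hZcard (by positivity)
    _ = C * (H ^ ((k : ℝ) + 1 / 2) * C₂ + 9 * (H ^ (((k : ℝ) + 1) / 2) * (B ^ 2 * B ^ ε))) := by ring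
    _ ≤ C * (C₂ + 9) * (H ^ ((k : ℝ) + 1 / 2) + H ^ (((k : ℝ) + 1) / 2) * B ^ (2 + ε)) := by
        rw [hBB]
        have e1 : 0 ≤ H ^ ((k : ℝ) + 1 / 2) := by positivity
        have e2 : 0 ≤ H ^ (((k : ℝ) + 1) / 2) * B ^ (2 + ε) := by positivity
        rw [mul_assoc C]
        refine mul_le_mul_of_nonneg_left ?_ hC.le
        nlinarith

/-- the sum over the integers -/
lemma sum_int {e : ℝ} (he : 1 < e) : ∃ C : ℝ, 0 < C ∧ ∀ (N : ℕ),
    ∑ x ∈ Finset.Icc (-(N : ℤ)) N, (1 / sz ![x, 1] ^ e) ≤ C := by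
  have hsum : Summable fun a : ℕ => 1 / (a : ℝ) ^ e :=
    Real.summable_one_div_nat_rpow.2 he
  set S : ℝ := ∑' a : ℕ, 1 / (a : ℝ) ^ e with hS
  have hS0 : 0 ≤ S := tsum_nonneg fun a => by positivity
  refine ⟨1 + 2 * S, by positivity, fun N => ?_⟩
  have hsub : Finset.Icc (-(N : ℤ)) N ⊆ {0} ∪ ((Finset.Icc 1 N).image (fun a : ℕ => (a : ℤ)) ∪
      (Finset.Icc 1 N).image (fun a : ℕ => -(a : ℤ))) := by
    intro x hx
    rw [Finset.mem_Icc] at hx
    rw [Finset.mem_union, Finset.mem_singleton, Finset.mem_union, Finset.mem_image, Finset.mem_image]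
    rcases lt_trichotomy x 0 with h | h | h
    · right; right
      exact ⟨x.natAbs, Finset.mem_Icc.2 ⟨by omega, by omega⟩, by omega⟩
    · left; exact h
    · right; left
      exact ⟨x.natAbs, Finset.mem_Icc.2 ⟨by omega, by omega⟩, by omega⟩
  have hnn : ∀ x : ℤ, 0 ≤ 1 / sz ![x, 1] ^ e := fun x => by
    have : 0 ≤ sz ![x, 1] := by
      unfold sz
      exact_mod_cast le_max_of_le_left (abs_nonneg _)
    positivity
  have hval : ∀ a : ℕ, 1 ≤ a → sz ![(a : ℤ), 1] = a ∧ sz ![-(a : ℤ), 1] = a := by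
    intro a ha
    unfold sz
    have h1 : (1 : ℤ) ≤ a := by exact_mod_cast ha
    simp [abs_neg]
    exact_mod_cast ha
  have hz : sz ![(0 : ℤ), 1] = 1 := by
    unfold sz
    simp
  have hA : ∀ f : ℕ → ℤ, Function.Injective f → (∀ a, 1 ≤ a → sz ![f a, 1] = a) →
      ∑ x ∈ (Finset.Icc 1 N).image f, (1 / sz ![x, 1] ^ e) ≤ S := by
    intro f hf hfv
    rw [Finset.sum_image (fun a _ b _ h => hf h)]
    rw [Finset.sum_congr rfl fun a ha => by
      rw [hfv a (Finset.mem_Icc.1 ha).1]]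
    exact hsum.sum_le_tsum _ (fun a _ => by positivity)
  calc ∑ x ∈ Finset.Icc (-(N : ℤ)) N, (1 / sz ![x, 1] ^ e)
      ≤ ∑ x ∈ {0} ∪ ((Finset.Icc 1 N).image (fun a : ℕ => (a : ℤ)) ∪
          (Finset.Icc 1 N).image (fun a : ℕ => -(a : ℤ))), (1 / sz ![x, 1] ^ e) :=
        Finset.sum_le_sum_of_subset_of_nonneg hsub fun x _ _ => hnn x
    _ ≤ ∑ x ∈ ({0} : Finset ℤ), (1 / sz ![x, 1] ^ e) +
          (∑ x ∈ (Finset.Icc 1 N).image (fun a : ℕ => (a : ℤ)), (1 / sz ![x, 1] ^ e) +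
          ∑ x ∈ (Finset.Icc 1 N).image (fun a : ℕ => -(a : ℤ)), (1 / sz ![x, 1] ^ e)) := by
        have key : ∀ s t : Finset ℤ, ∑ x ∈ s ∪ t, (1 / sz ![x, 1] ^ e) ≤
            ∑ x ∈ s, (1 / sz ![x, 1] ^ e) + ∑ x ∈ t, (1 / sz ![x, 1] ^ e) := by
          intro s t
          rw [← Finset.sum_union_inter]
          have := Finset.sum_nonneg fun x (_ : x ∈ s ∩ t) => hnn x
          linarith
        exact (key _ _).trans (add_le_add le_rfl (key _ _))
    _ ≤ 1 + (S + S) := by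
        refine add_le_add ?_ (add_le_add ?_ ?_)
        · rw [Finset.sum_singleton, hz, Real.one_rpow, div_one]
        · exact hA (fun a => (a : ℤ)) Nat.cast_injective fun a ha => (hval a ha).1
        · exact hA (fun a => -(a : ℤ)) (fun a b h => Nat.cast_injective (neg_injective h)) fun a ha => (hval a ha).2
    _ = 1 + 2 * S := by ring

/-- **integral points on random hyperelliptic curves** -/
theorem integral (k : ℕ) (hk : 2 ≤ k) {ε : ℝ} (hε : 0 < ε) : ∃ C : ℝ, 0 < C ∧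
    ∀ H X : ℝ, 1 ≤ H → 1 ≤ X → ∀ (G : ℤ → ℤ) (P : Finset ((Fin (k + 1) → ℤ) × ℤ)),
    (∀ p ∈ P, (∀ i, |(p.1 i : ℝ)| ≤ H) ∧ |(p.2 : ℝ)| ≤ X ∧
      ∃ y : ℤ, y ^ 2 = G p.2 + ∑ i : Fin (k + 1), p.1 i * p.2 ^ (i : ℕ)) →
    (P.card : ℝ) ≤ C * X ^ ε * (H ^ ((k : ℝ) + 1 / 2) + H ^ (((k : ℝ) + 1) / 2) * X) := by
  obtain ⟨C, hC, h⟩ := one_point k hε
  obtain ⟨C₂, hC₂, h₂⟩ := sum_int (e := 1 + ε) (by linarith)
  refine ⟨C * (C₂ + 3), by positivity, fun H X hH hX G P hP => ?_⟩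
  have hH0 : 0 < H := by linarith
  have hX0 : 0 < X := by linarith
  set N : ℕ := ⌊X⌋₊ with hN
  have hNX : (N : ℝ) ≤ X := Nat.floor_le hX0.le
  have habs : ∀ x : ℤ, |(x : ℝ)| ≤ X ↔ |x| ≤ (N : ℤ) := by
    intro x
    rw [← Int.cast_abs, hN, ← Int.natCast_natAbs, Int.cast_natCast, Nat.cast_le,
      Nat.le_floor_iff hX0.le]
  have hbin : ∀ (c : Fin (k + 1) → ℤ) (x : ℤ), bin k c ![x, 1] =
      ∑ i : Fin (k + 1), c i * x ^ (i : ℕ) := by
    intro c x
    unfold bin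
    simp
  set Z : Finset ℤ := Finset.Icc (-(N : ℤ)) N with hZ
  have hmaps : ∀ p ∈ P, p.2 ∈ Z := by
    intro p hp
    obtain ⟨-, h1, -⟩ := hP p hp
    rw [hZ, Finset.mem_Icc, ← abs_le]
    exact (habs _).1 h1
  have hcop : ∀ x : ℤ, IsCoprime ((![x, 1] : Fin 2 → ℤ) 0) ((![x, 1] : Fin 2 → ℤ) 1) := by
    intro x
    simp [isCoprime_one_right]
  have hone : ∀ x ∈ Z, ((P.filter fun p => p.2 = x).card : ℝ) ≤
      C * (H ^ ((k : ℝ) + 1 / 2) * (X ^ ε * (1 / sz ![x, 1] ^ (1 + ε))) +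
        H ^ (((k : ℝ) + 1) / 2) * X ^ ε) := by
    intro x hx
    have hs1 := one_le_sz (hcop x)
    have hinj : Set.InjOn Prod.fst
        (↑(P.filter fun p => p.2 = x) : Set ((Fin (k + 1) → ℤ) × ℤ)) := by
      intro p hp p' hp' hpp
      have e1 := (Finset.mem_filter.1 (Finset.mem_coe.1 hp)).2
      have e2 := (Finset.mem_filter.1 (Finset.mem_coe.1 hp')).2
      exact Prod.ext hpp (e1.trans e2.symm)
    rw [← Finset.card_image_of_injOn hinj]
    refine (h ![x, 1] (hcop x) H hH (G x) _ ?_).trans ?_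
    · intro c hc
      obtain ⟨p, hp, rfl⟩ := Finset.mem_image.1 hc
      rw [Finset.mem_filter] at hp
      obtain ⟨g1, -, g5⟩ := hP p hp.1
      rw [hp.2] at g5
      rw [hbin]
      exact ⟨g5, g1⟩
    · have e2 : sz ![x, 1] ≤ X := by
        rw [hZ, Finset.mem_Icc, ← abs_le] at hx
        have e4 := (habs x).2 hx
        have e5 : sz ![x, 1] = max |(x : ℝ)| 1 := by
          unfold sz
          simp
        rw [e5]
        exact max_le e4 hX
      have e3 : sz ![x, 1] ^ ε ≤ X ^ ε := Real.rpow_le_rpow (by linarith) e2 hε.le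
      have hs0 : 0 < sz ![x, 1] := by linarith
      have e1 : 1 / sz ![x, 1] ^ ((k : ℝ) / 2) ≤ X ^ ε * (1 / sz ![x, 1] ^ (1 + ε)) := by
        have g1 : 1 / sz ![x, 1] ^ ((k : ℝ) / 2) ≤ 1 / sz ![x, 1] := by
          refine one_div_le_one_div_of_le hs0 ?_
          calc sz ![x, 1] = sz ![x, 1] ^ (1 : ℝ) := (Real.rpow_one _).symm
            _ ≤ _ := Real.rpow_le_rpow_of_exponent_le hs1 (by
                have : (2 : ℝ) ≤ k := by exact_mod_cast hk
                linarith)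
        have g2 : 1 / sz ![x, 1] = sz ![x, 1] ^ ε * (1 / sz ![x, 1] ^ (1 + ε)) := by
          rw [Real.rpow_add hs0, Real.rpow_one]
          have : sz ![x, 1] ^ ε ≠ 0 := by positivity
          field_simp
        refine g1.trans (g2.le.trans ?_)
        exact mul_le_mul_of_nonneg_right e3 (by positivity)
      refine mul_le_mul_of_nonneg_left (add_le_add ?_ ?_) hC.le
      · exact mul_le_mul_of_nonneg_left e1 (by positivity)
      · exact mul_le_mul_of_nonneg_left e3 (by positivity)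
  have h3 : (P.card : ℝ) = ∑ x ∈ Z, ((P.filter fun p => p.2 = x).card : ℝ) := by
    rw [Finset.card_eq_sum_card_fiberwise hmaps]
    push_cast
    rfl
  have hZcard : (Z.card : ℝ) ≤ 3 * X := by
    have h4 : Z.card = 2 * N + 1 := by
      rw [hZ, Int.card_Icc]
      omega
    rw [h4]
    push_cast
    linarith
  calc (P.card : ℝ) = ∑ x ∈ Z, ((P.filter fun p => p.2 = x).card : ℝ) := h3
    _ ≤ ∑ x ∈ Z, C * (H ^ ((k : ℝ) + 1 / 2) * (X ^ ε * (1 / sz ![x, 1] ^ (1 + ε))) +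
          H ^ (((k : ℝ) + 1) / 2) * X ^ ε) := Finset.sum_le_sum hone
    _ = C * (H ^ ((k : ℝ) + 1 / 2) * (X ^ ε * (∑ x ∈ Z, (1 / sz ![x, 1] ^ (1 + ε)))) +
          (Z.card : ℝ) * (H ^ (((k : ℝ) + 1) / 2) * X ^ ε)) := by
        rw [← Finset.mul_sum, Finset.sum_add_distrib, ← Finset.mul_sum, ← Finset.mul_sum,
          Finset.sum_const, nsmul_eq_mul]
    _ ≤ C * (H ^ ((k : ℝ) + 1 / 2) * (X ^ ε * C₂) +
          (3 * X) * (H ^ (((k : ℝ) + 1) / 2) * X ^ ε)) := by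
        refine mul_le_mul_of_nonneg_left (add_le_add ?_ ?_) hC.le
        · exact mul_le_mul_of_nonneg_left (mul_le_mul_of_nonneg_left (h₂ N) (by positivity))
            (by positivity)
        · exact mul_le_mul_of_nonneg_right hZcard (by positivity)
    _ = C * X ^ ε * (H ^ ((k : ℝ) + 1 / 2) * C₂ + 3 * (H ^ (((k : ℝ) + 1) / 2) * X)) := by ring
    _ ≤ C * X ^ ε * ((C₂ + 3) * (H ^ ((k : ℝ) + 1 / 2) + H ^ (((k : ℝ) + 1) / 2) * X)) := by
        have e1 : 0 ≤ H ^ ((k : ℝ) + 1 / 2) := by positivity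
        have e2 : 0 ≤ H ^ (((k : ℝ) + 1) / 2) * X := by positivity
        refine mul_le_mul_of_nonneg_left ?_ (by positivity)
        nlinarith
    _ = _ := by ring

/-- a set is finite and small if this holds for its finite subsets -/
lemma finite_of_card {α : Type} (V : Set α) (b : ℝ)
    (h : ∀ T : Finset α, (T : Set α) ⊆ V → (T.card : ℝ) ≤ b) : V.Finite ∧ (V.ncard : ℝ) ≤ b := by
  have hfin : V.Finite := by
    by_contra hinf
    change V.Infinite at hinf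
    obtain ⟨T, hT1, hT2⟩ := hinf.exists_subset_card_eq (⌈b⌉₊ + 1)
    have h3 := h T hT1
    rw [hT2] at h3
    have h4 := Nat.le_ceil b
    push_cast at h3
    linarith
  refine ⟨hfin, ?_⟩
  rw [Set.ncard_eq_toFinset_card _ hfin]
  exact h _ (by rw [Set.Finite.coe_toFinset])

end Pool.Agent.R366.HE
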